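import Mathlib

set_option autoImplicit false

namespace Pool.Agent.Results.MP_a6415b_co.Unbounded

/-- The token graph of the list `l` of positions of the tokens placed so far. -/
def tokenGraph {V : Type} (G : SimpleGraph V) (l : List V) : SimpleGraph (Fin l.length) :=
  SimpleGraph.fromRel fun i j => l.get i = l.get j ∨ G.Adj (l.get i) (l.get j)

/-- The colour that the strategy `σ` gives to token `i`: it sees the positions up to token `i`. -/
def colour {V : Type} (σ : List V → ℕ) (l : List V) (i : Fin l.length) : ℕ := σ (l.take (i + 1))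

/-- `σ` colours properly in every play that is legal for Spoiler. -/
def Proper {V : Type} (G : SimpleGraph V) (w : ℕ) (σ : List V → ℕ) : Prop :=
  ∀ l : List V, (tokenGraph G l).Colorable w →
    ∀ i j, (tokenGraph G l).Adj i j → colour σ l i ≠ colour σ l j

/-- The value of the game: the least `N` such that some proper strategy never uses more than `N`
colours in a legal play. -/
noncomputable def value {V : Type} (w : ℕ) (G : SimpleGraph V) : ℕ :=
  sInf {N | ∃ σ : List V → ℕ, Proper G w σ ∧ ∀ l : List V, (tokenGraph G l).Colorable w →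
    (Finset.univ.image (colour σ l)).card ≤ N}

/-- host graph -/
def host (n : ℕ) : SimpleGraph (Fin n) := SimpleGraph.fromRel fun i j => (j : ℕ).testBit i

section
variable {n : ℕ} (σ : List (Fin n) → ℕ)

/-- colours on the vertices in `F` -/
def cols (l : List (Fin n)) (F : Finset (Fin n)) : Finset ℕ :=
  (Finset.univ.filter fun i => l.get i ∈ F).image (colour σ l)

theorem mem_cols {l : List (Fin n)} {F : Finset (Fin n)} {c : ℕ} :
    c ∈ cols σ l F ↔ ∃ i, ∃ h : i < l.length, l[i] ∈ F ∧ σ (l.take (i + 1)) = c := by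
  simp only [cols, colour, Finset.mem_image, Finset.mem_filter, Finset.mem_univ, true_and,
    List.get_eq_getElem]
  exact ⟨fun ⟨i, h⟩ => ⟨i, i.2, h⟩, fun ⟨i, h, h'⟩ => ⟨⟨i, h⟩, h'⟩⟩

theorem cols_mono (l l' : List (Fin n)) (F : Finset (Fin n)) : cols σ l F ⊆ cols σ (l ++ l') F := by
  intro c hc
  obtain ⟨i, h, h1, h2⟩ := (mem_cols σ).1 hc
  refine (mem_cols σ).2 ⟨i, by simp; omega, by rwa [List.getElem_append_left h], ?_⟩
  rwa [List.take_append_of_le_length h]

theorem cols_union (l : List (Fin n)) (F F' : Finset (Fin n)) :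
    cols σ l F ∪ cols σ l F' ⊆ cols σ l (F ∪ F') := by
  intro c hc
  rcases Finset.mem_union.1 hc with hc | hc <;> obtain ⟨i, h, h1, h2⟩ := (mem_cols σ).1 hc
  · exact (mem_cols σ).2 ⟨i, h, Finset.mem_union_left _ h1, h2⟩
  · exact (mem_cols σ).2 ⟨i, h, Finset.mem_union_right _ h1, h2⟩
end

/-- `s` is a proper 2-colouring on the vertices used, each vertex used at most `b` times -/
def Good {n : ℕ} (b : ℕ) (l : List (Fin n)) (s : Fin n → Bool) : Prop :=
  (∀ x, l.count x ≤ b) ∧ ∀ x ∈ l, ∀ y ∈ l, (host n).Adj x y → s x ≠ s y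

theorem count_take_lt {α : Type} [DecidableEq α] (l : List α) {i j : ℕ} (hij : i < j)
    (hi : i < l.length) : (l.take i).count l[i] < (l.take j).count l[i] := by
  have h1 : (l.take (i + 1)).count l[i] ≤ (l.take j).count l[i] :=
    (List.take_sublist_take_left hij).count_le _
  rw [List.take_succ_eq_append_getElem hi, List.count_append, List.count_singleton_self] at h1
  omega

theorem Good.col {n b w : ℕ} {l : List (Fin n)} {s : Fin n → Bool} (h : Good b l s)
    (hw : 2 * b ≤ w) : (tokenGraph (host n) l).Colorable w := by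
  have hc : ∀ i : Fin l.length, (l.take i).count l[i.1] < b := fun i => by
    have := count_take_lt l i.2 i.2
    rw [List.take_length] at this
    exact this.trans_le (h.1 _)
  refine ⟨SimpleGraph.Coloring.mk (fun i => ⟨(l.take i).count l[i.1] + if s l[i.1] then b else 0,
    by have := hc i; split_ifs <;> omega⟩) fun {i j} hij e => ?_⟩
  rw [tokenGraph, SimpleGraph.fromRel_adj] at hij
  simp only [List.get_eq_getElem, Fin.mk.injEq] at hij e
  have a := hc i
  have b' := hc j
  by_cases h1 : l[i.1] = l[j.1]
  · rcases lt_or_gt_of_ne (Fin.val_ne_of_ne hij.1) with h2 | h2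
    · have := count_take_lt l h2 i.2
      rw [← h1] at e
      omega
    · have := count_take_lt l h2 j.2
      rw [h1] at e
      omega
  · have h2 : (host n).Adj l[i.1] l[j.1] := by
      rcases hij.2 with (h | h) | (h | h)
      exacts [absurd h h1, h, absurd h.symm h1, h.symm]
    have := h.2 _ (List.getElem_mem _) _ (List.getElem_mem _) h2
    cases h3 : s l[i.1] <;> cases h4 : s l[j.1] <;> rw [h3, h4] at this e <;>
      simp only [if_true, if_false, Bool.false_eq_true] at e <;> first | omega | exact this rfl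

def tw : ℕ → ℕ → ℕ
  | 0, m => m
  | k + 1, m => 2 ^ (tw k (tw k m) + 1)

theorem le_tw (k m : ℕ) : m ≤ tw k m := by
  induction k generalizing m with
  | zero => exact le_rfl
  | succ k ih => exact ((ih m).trans (ih _)).trans (Nat.le_succ _ |>.trans Nat.lt_two_pow_self.le)

theorem main {n b w : ℕ} (hw : 2 * b ≤ w) (σ : List (Fin n) → ℕ) (hσ : Proper (host n) w σ)
    (k : ℕ) : ∀ (m : ℕ) (l : List (Fin n)) (s : Fin n → Bool), Good b l s → (∀ x ∈ l, x.1 < m) →
      tw k m ≤ n → ∃ (l' : List (Fin n)) (s' : Fin n → Bool) (F : Finset (Fin n)),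
        Good b l' s' ∧ (∀ x ∈ l', m ≤ x.1 ∧ x.1 < tw k m) ∧
        (∀ x ∈ l, ∀ y ∈ l', ¬ (host n).Adj x y) ∧ (∀ x ∈ F, x ∈ l' ∧ s' x = false) ∧
        k * b ≤ 2 * (cols σ (l ++ l') F).card := by
  have glue : ∀ (m : ℕ) (l l' : List (Fin n)) (s s' : Fin n → Bool), Good b l s → Good b l' s' →
      (∀ x ∈ l, x.1 < m) → (∀ x ∈ l', m ≤ x.1) →
      (∀ x ∈ l, ∀ y ∈ l', (host n).Adj x y → s x ≠ s' y) →
      Good b (l ++ l') fun x => if x.1 < m then s x else s' x := by
    intro m l l' s s' h h' a1 a2 a3
    refine ⟨fun x => ?_, fun x hx y hy hxy => ?_⟩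
    · rw [List.count_append]
      by_cases hx : x ∈ l
      · rw [List.count_eq_zero_of_not_mem fun h2 => (a2 x h2).not_gt (a1 x hx)]
        exact h.1 x
      · rw [List.count_eq_zero_of_not_mem hx, zero_add]
        exact h'.1 x
    · rcases List.mem_append.1 hx with hx | hx <;> rcases List.mem_append.1 hy with hy | hy
      · simpa [a1 x hx, a1 y hy] using h.2 x hx y hy hxy
      · simpa [a1 x hx, (a2 y hy).not_gt] using a3 x hx y hy hxy
      · simpa [a1 y hy, (a2 x hx).not_gt] using (a3 y hy x hx hxy.symm).symm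
      · simpa [(a2 x hx).not_gt, (a2 y hy).not_gt] using h'.2 x hx y hy hxy
  induction k with
  | zero => exact fun m l s _ _ _ => ⟨[], s, ∅, ⟨by simp, by simp⟩, by simp⟩
  | succ k ih =>
    intro m l s hg hm hn
    set m1 := tw k m with hm1
    set m2 := tw k m1 with hm2
    have e0 : tw (k + 1) m = 2 ^ (m2 + 1) := rfl
    have e1 : m ≤ m1 := le_tw _ _
    have e2 : m1 ≤ m2 := le_tw _ _
    have e3 : m2 < 2 ^ m2 := Nat.lt_two_pow_self
    have e4 : 2 ^ (m2 + 1) = 2 * 2 ^ m2 := pow_succ' _ _
    obtain ⟨l1, s1, F1, g1, r1, n1, f1, c1⟩ := ih m l s hg hm (by omega)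
    rw [← hm1] at r1
    have g01 := glue m l l1 s s1 hg g1 hm (fun x hx => (r1 x hx).1)
      fun x hx y hy h => absurd h (n1 x hx y hy)
    have r01 : ∀ x ∈ l ++ l1, x.1 < m1 := fun x hx => (List.mem_append.1 hx).elim
      (fun h => (hm x h).trans_le e1) fun h => (r1 x h).2
    obtain ⟨l2, s2, F2, g2, r2, n2, f2, c2⟩ := ih m1 (l ++ l1) _ g01 r01 (by omega)
    rw [← hm2] at r2
    have n12 : ∀ x ∈ l1, ∀ y ∈ l2, ¬ (host n).Adj x y := fun x hx =>
      n2 x (List.mem_append_right _ hx)
    have k1 := cols_mono σ (l ++ l1) l2 F1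
    by_cases hb : b ≤ 2 * (cols σ (l ++ l1) F1 \ cols σ (l ++ l1 ++ l2) F2).card
    · refine ⟨l1 ++ l2, _, F1 ∪ F2, glue m1 l1 l2 s1 s2 g1 g2 (fun x hx => (r1 x hx).2)
        (fun x hx => (r2 x hx).1) fun x hx y hy h => absurd h (n12 x hx y hy), fun x hx => ?_,
        fun x hx y hy => ?_, fun x hx => ?_, ?_⟩
      · rcases List.mem_append.1 hx with h | h
        · have := r1 x h; omega
        · have := r2 x h; omega
      · exact (List.mem_append.1 hy).elim (n1 x hx y) (n2 x (List.mem_append_left _ hx) y)
      · rcases Finset.mem_union.1 hx with h | h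
        · simp [f1 x h, (r1 x (f1 x h).1).2]
        · simp [f2 x h, (r2 x (f2 x h).1).1.not_gt]
      · rw [← List.append_assoc]
        have a1 := Finset.card_le_card ((Finset.union_subset_union_left k1).trans
          (cols_union σ (l ++ l1 ++ l2) F1 F2))
        rw [← Finset.card_sdiff_add_card] at a1
        rw [add_mul]
        omega
    · have hF2 : ∀ x ∈ F2.map Fin.valEmbedding, x < m2 := by
        simpa using fun x hx => (r2 x (f2 x hx).1).2
      have hlt := Nat.geomSum_lt le_rfl hF2
      set t := ∑ x ∈ F2.map Fin.valEmbedding, 2 ^ x with ht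
      let v : Fin n := ⟨2 ^ m2 + t, by omega⟩
      have hv : ∀ x : Fin n, x.1 < m2 → ((host n).Adj x v ↔ x ∈ F2) := fun x hx => by
        have a1 : x.1.testBit v = false := Nat.testBit_lt_two_pow
          (lt_of_lt_of_le (by simp only [v]; omega) Nat.lt_two_pow_self.le)
        have a2 : x ≠ v := fun h => by rw [h] at hx; simp only [v] at hx; omega
        have a3 : t.testBit x ↔ x ∈ F2 := by
          rw [← Nat.mem_bitIndices, ← List.mem_toFinset, ht, Finset.toFinset_bitIndices_sum_two_pow]
          simp [Fin.val_inj]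
        simp only [host, SimpleGraph.fromRel_adj, a1, ne_eq, a2, not_false_eq_true, true_and]
        simp only [v, Nat.testBit_two_pow_add_gt hx, a3, Bool.false_eq_true, or_false]
      have g3 : Good b (List.replicate b v) fun _ => false :=
        ⟨fun x => by rw [List.count_replicate]; split_ifs <;> omega, fun x hx y hy h => by
          rw [List.eq_of_mem_replicate hx, List.eq_of_mem_replicate hy] at h
          exact absurd h (SimpleGraph.irrefl _)⟩
      have r3 : ∀ x ∈ List.replicate b v, m2 ≤ x.1 ∧ x.1 < 2 ^ (m2 + 1) := fun x hx => by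
        rw [List.eq_of_mem_replicate hx]; simp only [v]; omega
      have g23 := glue m2 l2 _ (fun x => !s2 x) _ ⟨g2.1, fun x hx y hy h => by
        simpa using g2.2 x hx y hy h⟩ g3 (fun x hx => (r2 x hx).2) (fun x hx => (r3 x hx).1)
        fun x hx y hy h => by
          rw [List.eq_of_mem_replicate hy, hv x (r2 x hx).2] at h
          simp [f2 x h]
      have r23 : ∀ x ∈ l2 ++ List.replicate b v, m1 ≤ x.1 ∧ x.1 < 2 ^ (m2 + 1) := fun x hx => by
        rcases List.mem_append.1 hx with h | h
        · have := r2 x h; omega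
        · have := r3 x h; omega
      have n23 : ∀ x ∈ l ++ l1, ∀ y ∈ l2 ++ List.replicate b v, ¬ (host n).Adj x y := by
        intro x hx y hy
        rcases List.mem_append.1 hy with h | h
        · exact n2 x hx y h
        · rw [List.eq_of_mem_replicate h, hv x ((r01 x hx).trans_le e2)]
          exact fun h => (r2 x (f2 x h).1).1.not_gt (r01 x hx)
      have hP := hσ _ ((glue m1 _ _ _ _ g01 g23 r01 (fun x hx => (r23 x hx).1)
        fun x hx y hy h => absurd h (n23 x hx y hy)).col hw)
      rw [← List.append_assoc] at hP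
      set L := l ++ l1 ++ l2 with hL
      have hget : ∀ (i : ℕ) (h : i < (L ++ List.replicate b v).length), L.length ≤ i →
          (L ++ List.replicate b v)[i] = v := fun i h hi => by
        rw [List.getElem_append_right hi, List.getElem_replicate]
      let N : Finset ℕ := (Finset.range b).image fun i =>
        σ ((L ++ List.replicate b v).take (L.length + i + 1))
      have hN1 : N.card = b := by
        rw [Finset.card_image_of_injOn, Finset.card_range]
        intro i hi j hj e
        by_contra hij
        simp only [Finset.coe_range, Set.mem_Iio] at hi hj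
        refine hP ⟨L.length + i, by simp; omega⟩ ⟨L.length + j, by simp; omega⟩ ?_ e
        rw [tokenGraph, SimpleGraph.fromRel_adj]
        refine ⟨by simpa using hij, Or.inl (Or.inl ?_)⟩
        simp only [List.get_eq_getElem]
        rw [hget _ _ (Nat.le_add_right _ _), hget _ _ (Nat.le_add_right _ _)]
      have hN2 : N ⊆ cols σ (L ++ List.replicate b v) {v} := by
        intro c hc
        obtain ⟨i, hi, rfl⟩ := Finset.mem_image.1 hc
        rw [Finset.mem_range] at hi
        exact (mem_cols σ).2 ⟨L.length + i, by simp; omega, by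
          rw [hget _ _ (Nat.le_add_right _ _)]; simp, rfl⟩
      have hN3 : Disjoint N (cols σ L F2) := by
        rw [Finset.disjoint_left]
        intro c hc hc'
        obtain ⟨i, hi, rfl⟩ := Finset.mem_image.1 hc
        rw [Finset.mem_range] at hi
        obtain ⟨j, hj, h1, h2⟩ := (mem_cols σ).1 hc'
        refine hP ⟨j, by simp; omega⟩ ⟨L.length + i, by simp; omega⟩ ?_ ?_
        · rw [tokenGraph, SimpleGraph.fromRel_adj]
          refine ⟨fun e => by simp at e; omega, Or.inl (Or.inr ?_)⟩
          simp only [List.get_eq_getElem]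
          rw [hget _ _ (Nat.le_add_right _ _), List.getElem_append_left hj]
          exact (hv _ (r2 _ (f2 _ h1).1).2).2 h1
        · simp only [colour]
          rw [← h2, List.take_append_of_le_length hj]
      by_cases hb0 : b = 0
      · exact ⟨[], s, ∅, ⟨by simp, by simp⟩, by simp, by simp, by simp, by simp [hb0]⟩
      refine ⟨l1 ++ (l2 ++ List.replicate b v), _, F1 ∪ {v}, glue m1 _ _ s1 _ g1 g23
        (fun x hx => (r1 x hx).2) (fun x hx => (r23 x hx).1) fun x hx y hy h =>
          absurd h (n23 x (List.mem_append_right _ hx) y hy), fun x hx => ?_,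
        fun x hx y hy => ?_, fun x hx => ?_, ?_⟩
      · rcases List.mem_append.1 hx with h | h
        · have := r1 x h; omega
        · have := r23 x h; omega
      · exact (List.mem_append.1 hy).elim (n1 x hx y) (n23 x (List.mem_append_left _ hx) y)
      · rcases Finset.mem_union.1 hx with h | h
        · simp [f1 x h, (r1 x (f1 x h).1).2]
        · rw [Finset.mem_singleton.1 h]
          have a1 : ¬ v.1 < m1 := by simp only [v]; omega
          have a2 : ¬ v.1 < m2 := by simp only [v]; omega
          simp [a1, a2, Nat.pos_of_ne_zero hb0, hb0]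
      · rw [← List.append_assoc, ← List.append_assoc]
        have a1 : _ ≤ (cols σ (l ++ l1 ++ l2 ++ List.replicate b v) (F1 ∪ {v})).card :=
          Finset.card_le_card ((Finset.union_subset_union
          (k1.trans (cols_mono σ L (List.replicate b v) F1)) hN2).trans (cols_union σ _ F1 {v}))
        rw [Finset.union_comm, ← Finset.card_sdiff_add_card] at a1
        have a2 : N ⊆ N \ cols σ (l ++ l1) F1 ∪ (cols σ (l ++ l1) F1 \ cols σ L F2) := by
          intro c hc
          have := Finset.disjoint_left.1 hN3 hc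
          by_cases h : c ∈ cols σ (l ++ l1) F1
          · exact Finset.mem_union_right _ (Finset.mem_sdiff.2 ⟨h, this⟩)
          · exact Finset.mem_union_left _ (Finset.mem_sdiff.2 ⟨hc, h⟩)
        have a3 := (Finset.card_le_card a2).trans (Finset.card_union_le _ _)
        rw [add_mul]
        omega

theorem result (c : ℝ) : ∃ (n : ℕ) (G : SimpleGraph (Fin n)), ∀ w : ℕ, 2 ≤ w →
    c * w < value w G := by
  obtain ⟨k, hk⟩ := exists_nat_gt (6 * c)
  refine ⟨tw k 0, host _, fun w hw => ?_⟩
  have hne : {N | ∃ σ : List (Fin (tw k 0)) → ℕ, Proper (host _) w σ ∧ ∀ l : List (Fin (tw k 0)),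
      (tokenGraph (host _) l).Colorable w →
        (Finset.univ.image (colour σ l)).card ≤ N}.Nonempty := by
    refine ⟨tw k 0 * w, List.length, fun l _ i j hij e => hij.ne ?_, fun l ⟨C⟩ => ?_⟩
    · simp only [colour, List.length_take] at e
      ext
      omega
    · refine Finset.card_image_le.trans ?_
      have := Fintype.card_le_of_injective (fun i => (l.get i, C i)) fun i j e => by
        by_contra h
        simp only [Prod.mk.injEq] at e
        exact C.valid (by rw [tokenGraph, SimpleGraph.fromRel_adj]; exact ⟨h, Or.inl (Or.inl e.1)⟩)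
          e.2
      simpa using this
  obtain ⟨σ, h1, h2⟩ := Nat.sInf_mem hne
  obtain ⟨l, s, F, g, -, -, -, h⟩ := main (b := w / 2) (by omega) σ h1 k 0 [] (fun _ => false)
    ⟨by simp, by simp⟩ (by simp) le_rfl
  have a2 : k * w ≤ 6 * value w (host (tw k 0)) := by
    have : k * w ≤ k * (3 * (w / 2)) := Nat.mul_le_mul_left _ (by omega)
    have a3 : (cols σ ([] ++ l) F).card ≤ value w (host (tw k 0)) :=
      (Finset.card_le_card (Finset.image_subset_image (Finset.filter_subset _ _))).trans
        (h2 ([] ++ l) (g.col (by omega)))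
    nlinarith
  have a3 : (k : ℝ) * w ≤ 6 * value w (host (tw k 0)) := by exact_mod_cast a2
  have a4 : (0 : ℝ) < w := by exact_mod_cast (by omega : 0 < w)
  nlinarith

end Pool.Agent.Results.MP_a6415b_co.Unbounded
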